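import Mathlib

/-!
# Sullivan vertices: in-neighbourhoods of a vertex and its non-neighbours

`Z U v` are the vertices of `U` not reached from `v` in at most two steps, `M U v` the non-neighbours
of `v` in `U`, `I U v` the in-neighbours of `v` in `U`.  A vertex `v` satisfies
`|N-(v)| ≤ |N2+(v)| + d` in the subgraph induced by `U` iff `|Z U v| ≤ |M U v| + d`.
-/

set_option autoImplicit false
set_option linter.unusedSectionVars false

namespace Pool.Agent.SulTree

open Finset

section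
variable {V : Type*} [DecidableEq V] (adj : V → V → Prop) [DecidableRel adj]

/-- The vertices of `U` not reached from `v` by a directed path of length at most two in `U`. -/
def Z (U : Finset V) (v : V) : Finset V :=
  U.filter fun w => w ≠ v ∧ ¬ adj v w ∧ ∀ u ∈ U, adj v u → ¬ adj u w

/-- The non-neighbours of `v` in `U`. -/
def M (U : Finset V) (v : V) : Finset V := U.filter fun w => w ≠ v ∧ ¬ adj v w ∧ ¬ adj w v

/-- The in-neighbours of `v` in `U`. -/
def I (U : Finset V) (v : V) : Finset V := U.filter fun w => adj w v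

/-- `v` satisfies `|N-(v)| ≤ |N2+(v)| + d` in the subgraph induced by `U`. -/
def Sul (d : ℕ) (U : Finset V) (v : V) : Prop := v ∈ U ∧ (Z adj U v).card ≤ (M adj U v).card + d

variable {adj}

theorem mem_Z {U : Finset V} {v w : V} :
    w ∈ Z adj U v ↔ w ∈ U ∧ w ≠ v ∧ ¬ adj v w ∧ ∀ u ∈ U, adj v u → ¬ adj u w := by
  unfold Z; rw [mem_filter]

theorem mem_M {U : Finset V} {v w : V} :
    w ∈ M adj U v ↔ w ∈ U ∧ w ≠ v ∧ ¬ adj v w ∧ ¬ adj w v := by
  unfold M; rw [mem_filter]

theorem mem_I {U : Finset V} {v w : V} : w ∈ I adj U v ↔ w ∈ U ∧ adj w v := by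
  unfold I; rw [mem_filter]

/-- If no vertex of `U` is as wanted but every nonempty in-neighbourhood has one, then each `z` in
`U` has an in-neighbour `a` with `|M(a) ∖ N-(z)| + 1 ≤ |Z(a) ∩ M(z)|`. -/
theorem exists_good {d : ℕ} {U : Finset V} (hno : ∀ v, ¬ Sul adj d U v)
    (hmin : ∀ z ∈ U, (I adj U z).Nonempty → ∃ v, Sul adj d (I adj U z) v) {z : V} (hz : z ∈ U) :
    ∃ a ∈ U, adj a z ∧ (M adj U a \ I adj U z).card + 1 ≤ (Z adj U a ∩ M adj U z).card := by
  have hIU : I adj U z ⊆ U := filter_subset _ _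
  have hI : (I adj U z).Nonempty := by
    rw [nonempty_iff_ne_empty]
    intro he
    apply hno z
    refine ⟨hz, ?_⟩
    have h1 : Z adj U z ⊆ M adj U z := by
      intro w hw
      rw [mem_Z] at hw
      refine mem_M.2 ⟨hw.1, hw.2.1, hw.2.2.1, ?_⟩
      intro h
      have : w ∈ I adj U z := mem_I.2 ⟨hw.1, h⟩
      rw [he] at this
      exact absurd this (notMem_empty w)
    have := card_le_card h1
    omega
  obtain ⟨a, haI, ha⟩ := hmin z hz hI
  have haI' := mem_I.1 haI
  have hlt : (M adj U a).card + d + 1 ≤ (Z adj U a).card := by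
    by_contra hcon
    exact hno a ⟨haI'.1, by omega⟩
  have hMI : M adj (I adj U z) a ⊆ M adj U a ∩ I adj U z := by
    intro w hw
    rw [mem_M] at hw
    exact mem_inter.2 ⟨mem_M.2 ⟨hIU hw.1, hw.2⟩, hw.1⟩
  have hZI : Z adj U a ∩ I adj U z ⊆ Z adj (I adj U z) a := by
    intro w hw
    rw [mem_inter, mem_Z] at hw
    exact mem_Z.2 ⟨hw.2, hw.1.2.1, hw.1.2.2.1, fun u hu => hw.1.2.2.2 u (hIU hu)⟩
  have hZM : Z adj U a \ I adj U z ⊆ Z adj U a ∩ M adj U z := by
    intro w hw
    rw [mem_sdiff] at hw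
    have hw' := mem_Z.1 hw.1
    refine mem_inter.2 ⟨hw.1, mem_M.2 ⟨hw'.1, ?_, ?_, ?_⟩⟩
    · rintro rfl
      exact hw'.2.2.1 haI'.2
    · exact hw'.2.2.2 z hz haI'.2
    · intro h
      exact hw.2 (mem_I.2 ⟨hw'.1, h⟩)
  have h1 := card_le_card hMI
  have h2 := card_le_card hZI
  have h5 := card_le_card hZM
  have h3 : (M adj U a ∩ I adj U z).card + (M adj U a \ I adj U z).card =
      (M adj U a).card := card_inter_add_card_sdiff _ _
  have h4 : (Z adj U a ∩ I adj U z).card + (Z adj U a \ I adj U z).card =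
      (Z adj U a).card := card_inter_add_card_sdiff _ _
  exact ⟨a, haI'.1, haI'.2, by omega⟩

/-- The two-sided situation. -/
theorem two_sided {U : Finset V} {z y a b : V} (ha : a ∈ U) (hb : b ∈ U) (haz : adj a z)
    (hby : adj b y) (hya : y ∈ Z adj U a) (hzb : z ∈ Z adj U b) :
    b ∈ M adj U a \ I adj U z := by
  have h1 := mem_Z.1 hya
  have h2 := mem_Z.1 hzb
  rw [mem_sdiff]
  refine ⟨mem_M.2 ⟨hb, ?_, ?_, ?_⟩, ?_⟩
  · rintro rfl
    exact h2.2.2.1 haz
  · intro h
    exact h1.2.2.2 b hb h hby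
  · intro h
    exact h2.2.2.2 a ha h haz
  · intro h
    exact h2.2.2.1 (mem_I.1 h).2

/-- A set `C` without arcs from outside: a vertex as wanted in `C` is one in `U`. -/
theorem sul_of_closed {d : ℕ} {U C : Finset V} (hC : C ⊆ U)
    (hcl : ∀ x ∈ U, x ∉ C → ∀ y ∈ C, ¬ adj x y) {v : V} (hv : Sul adj d C v) :
    Sul adj d U v := by
  refine ⟨hC hv.1, ?_⟩
  have h1 : Z adj U v ∩ C ⊆ Z adj C v := by
    intro w hw
    rw [mem_inter, mem_Z] at hw
    exact mem_Z.2 ⟨hw.2, hw.1.2.1, hw.1.2.2.1, fun u hu => hw.1.2.2.2 u (hC hu)⟩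
  have h2 : Z adj U v \ C ⊆ M adj U v \ C := by
    intro w hw
    rw [mem_sdiff, mem_Z] at hw
    exact mem_sdiff.2 ⟨mem_M.2 ⟨hw.1.1, hw.1.2.1, hw.1.2.2.1, hcl w hw.1.1 hw.2 v hv.1⟩, hw.2⟩
  have h3 : M adj C v ⊆ M adj U v ∩ C := by
    intro w hw
    rw [mem_M] at hw
    exact mem_inter.2 ⟨mem_M.2 ⟨hC hw.1, hw.2⟩, hw.1⟩
  have h4 := card_le_card h1
  have h5 := card_le_card h2
  have h6 := card_le_card h3
  have h7 : (M adj U v ∩ C).card + (M adj U v \ C).card = (M adj U v).card :=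
    card_inter_add_card_sdiff _ _
  have h8 : (Z adj U v ∩ C).card + (Z adj U v \ C).card = (Z adj U v).card :=
    card_inter_add_card_sdiff _ _
  have h9 := hv.2
  omega

end

end Pool.Agent.SulTree
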