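import Mathlib

/-!
# Counting: a map on the edges of a graph with at most as many edges as vertices
-/

set_option autoImplicit false
set_option linter.unusedSectionVars false

namespace Pool.Agent.SulTree

open Finset

variable {V : Type*} [DecidableEq V]

/-- The vertices with an edge that belongs to `Tf` in both directions. -/
def V2 (U : Finset V) (Tf : V → Finset V) : Finset V :=
  U.filter fun z => ∃ y ∈ Tf z, z ∈ Tf y

theorem mem_V2 {U : Finset V} {Tf : V → Finset V} {z : V} :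
    z ∈ V2 U Tf ↔ z ∈ U ∧ ∃ y ∈ Tf z, z ∈ Tf y := by
  unfold V2; rw [mem_filter]

theorem count (U : Finset V) (Mf Tf : V → Finset V) (m : V → ℕ)
    (hTM : ∀ z ∈ U, Tf z ⊆ Mf z) (hMU : ∀ z ∈ U, Mf z ⊆ U)
    (hsym : ∀ x ∈ U, ∀ y ∈ Mf x, x ∈ Mf y)
    (hcard : ∀ z ∈ U, m z + 1 ≤ (Tf z).card)
    (hB : ∀ z ∈ U, ∀ y ∈ Tf z, z ∈ Tf y → 1 ≤ m z)
    (h4 : ∑ z ∈ U, (Mf z).card ≤ 2 * U.card) :
    (∀ z ∈ U, z ∉ V2 U Tf → (Tf z).card = 1 ∧ m z = 0) ∧
    (∀ z ∈ V2 U Tf, (Tf z).card = 2 ∧ m z = 1 ∧ ∀ y ∈ Tf z, z ∈ Tf y) ∧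
    (∀ z ∈ U, ∀ y ∈ Mf z, y ∈ Tf z ∨ z ∈ Tf y) := by
  obtain ⟨b, hb⟩ : ∃ b : V → ℕ, ∀ z, b z = ((Tf z).filter fun y => z ∈ Tf y).card := ⟨_, fun _ => rfl⟩
  obtain ⟨c, hc⟩ : ∃ c : V → ℕ, ∀ z, c z = ((Mf z).filter fun y => y ∈ Tf z ∨ z ∈ Tf y).card :=
    ⟨_, fun _ => rfl⟩
  obtain ⟨e, he⟩ : ∃ e : V → ℕ, ∀ z, e z = ((Mf z).filter fun y => z ∈ Tf y).card :=
    ⟨_, fun _ => rfl⟩
  have hV2U : V2 U Tf ⊆ U := filter_subset _ _
  -- inclusion-exclusion at a vertex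
  have h1 : ∀ z ∈ U, c z + b z = (Tf z).card + e z := by
    intro z hz
    rw [hb, hc, he]
    have h2 : ((Mf z).filter fun y => y ∈ Tf z ∨ z ∈ Tf y) =
        Tf z ∪ ((Mf z).filter fun y => z ∈ Tf y) := by
      ext y
      rw [mem_filter, mem_union, mem_filter]
      constructor
      · rintro ⟨h, h' | h'⟩
        · exact Or.inl h'
        · exact Or.inr ⟨h, h'⟩
      · rintro (h | ⟨h, h'⟩)
        · exact ⟨hTM z hz h, Or.inl h⟩
        · exact ⟨h, Or.inr h'⟩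
    have h3 : ((Tf z).filter fun y => z ∈ Tf y) =
        Tf z ∩ ((Mf z).filter fun y => z ∈ Tf y) := by
      ext y
      rw [mem_filter, mem_inter, mem_filter]
      constructor
      · rintro ⟨h, h'⟩
        exact ⟨h, hTM z hz h, h'⟩
      · rintro ⟨h, _, h'⟩
        exact ⟨h, h'⟩
    rw [h2, h3, card_union_add_card_inter]
  -- double counting
  have h2 : ∑ z ∈ U, e z = ∑ z ∈ U, (Tf z).card := by
    have h3 : ∀ z ∈ U, e z = ∑ y ∈ U, if z ∈ Tf y then 1 else 0 := by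
      intro z hz
      rw [he, ← card_filter]
      congr 1
      ext y
      rw [mem_filter, mem_filter]
      constructor
      · rintro ⟨h, h'⟩
        exact ⟨hMU z hz h, h'⟩
      · rintro ⟨h, h'⟩
        exact ⟨hsym y h z (hTM y h h'), h'⟩
    rw [sum_congr rfl h3, sum_comm]
    refine sum_congr rfl ?_
    intro y hy
    rw [← card_filter]
    congr 1
    ext z
    rw [mem_filter]
    exact ⟨fun h => h.2, fun h => ⟨hMU y hy (hTM y hy h), h⟩⟩
  have h3 : ∑ z ∈ U, c z + ∑ z ∈ U, b z = ∑ z ∈ U, (Tf z).card + ∑ z ∈ U, (Tf z).card := by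
    rw [← sum_add_distrib, sum_congr rfl h1, sum_add_distrib, h2]
  have hcM : ∀ z ∈ U, c z ≤ (Mf z).card := by
    intro z _
    rw [hc]
    exact card_le_card (filter_subset _ _)
  have h5 : ∑ z ∈ U, c z ≤ ∑ z ∈ U, (Mf z).card := sum_le_sum hcM
  have h6 : ∑ z ∈ U, m z + U.card ≤ ∑ z ∈ U, (Tf z).card := by
    have := sum_le_sum hcard
    rwa [sum_add_distrib, sum_const, smul_eq_mul, mul_one] at this
  have hb0 : ∀ z ∈ U, z ∉ V2 U Tf → b z = 0 := by
    intro z hz hzV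
    rw [hb, card_eq_zero, filter_eq_empty_iff]
    intro y hy hzy
    exact hzV (mem_V2.2 ⟨hz, y, hy, hzy⟩)
  have h7 : ∑ z ∈ U, b z = ∑ z ∈ V2 U Tf, b z := by
    symm
    apply sum_subset hV2U
    exact fun z hz hz' => hb0 z hz hz'
  have hbT' : ∀ z ∈ V2 U Tf, b z ≤ (Tf z).card := by
    intro z _
    rw [hb]
    exact card_le_card (filter_subset _ _)
  have h8 : ∑ z ∈ V2 U Tf, b z ≤ 2 * (V2 U Tf).card := by
    have h11 := sum_le_sum hbT'
    have h12 := sum_sdiff (f := fun z => (Tf z).card) hV2U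
    have h13 : (U \ V2 U Tf).card ≤ ∑ z ∈ U \ V2 U Tf, (Tf z).card := by
      have h14 : ∀ z ∈ U \ V2 U Tf, 1 ≤ (Tf z).card := by
        intro z hz
        have := hcard z (mem_sdiff.1 hz).1
        omega
      have := sum_le_sum h14
      rwa [sum_const, smul_eq_mul, mul_one] at this
    have h15 := card_sdiff_add_card_eq_card hV2U
    omega
  have hm1 : ∀ z ∈ V2 U Tf, 1 ≤ m z := by
    intro z hz
    obtain ⟨hzU, y, hy, hzy⟩ := mem_V2.1 hz
    exact hB z hzU y hy hzy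
  have h9 : (V2 U Tf).card ≤ ∑ z ∈ V2 U Tf, m z := by
    have := sum_le_sum hm1
    rwa [sum_const, smul_eq_mul, mul_one] at this
  have h10 : ∑ z ∈ V2 U Tf, m z ≤ ∑ z ∈ U, m z := sum_le_sum_of_subset hV2U
  -- equalities
  have e1 : ∀ z ∈ U, m z + 1 = (Tf z).card := by
    apply (sum_eq_sum_iff_of_le hcard).1
    rw [sum_add_distrib, sum_const, smul_eq_mul, mul_one]
    omega
  have e2 : ∀ z ∈ V2 U Tf, 1 = m z := by
    apply (sum_eq_sum_iff_of_le hm1).1
    rw [sum_const, smul_eq_mul, mul_one]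
    omega
  have e3 : ∀ z ∈ U, z ∉ V2 U Tf → m z = 0 := by
    intro z hz hzV
    have h11 : ∑ z ∈ U \ V2 U Tf, m z = 0 := by
      have := sum_sdiff (f := m) hV2U
      omega
    exact (sum_eq_zero_iff.1 h11) z (mem_sdiff.2 ⟨hz, hzV⟩)
  have e4 : ∀ z ∈ U, c z = (Mf z).card := by
    apply (sum_eq_sum_iff_of_le hcM).1
    omega
  have hbT : ∀ z ∈ V2 U Tf, b z ≤ 2 := by
    intro z hz
    have h11 := e1 z (hV2U hz)
    have h12 := e2 z hz
    have h13 : b z ≤ (Tf z).card := by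
      rw [hb]
      exact card_le_card (filter_subset _ _)
    omega
  have e5 : ∀ z ∈ V2 U Tf, b z = 2 := by
    apply (sum_eq_sum_iff_of_le hbT).1
    rw [sum_const, smul_eq_mul]
    omega
  refine ⟨?_, ?_, ?_⟩
  · intro z hz hzV
    have h11 := e1 z hz
    have h12 := e3 z hz hzV
    exact ⟨by omega, h12⟩
  · intro z hz
    have h11 := e1 z (hV2U hz)
    have h12 := e2 z hz
    have h13 := e5 z hz
    refine ⟨by omega, h12.symm, ?_⟩
    intro y hy
    rw [hb] at h13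
    have h14 : ((Tf z).filter fun y => z ∈ Tf y) = Tf z :=
      eq_of_subset_of_card_le (filter_subset _ _) (by omega)
    have h15 : y ∈ ((Tf z).filter fun y => z ∈ Tf y) := by rw [h14]; exact hy
    exact (mem_filter.1 h15).2
  · intro z hz y hy
    have h11 := e4 z hz
    rw [hc] at h11
    have h14 : ((Mf z).filter fun y => y ∈ Tf z ∨ z ∈ Tf y) = Mf z :=
      eq_of_subset_of_card_le (filter_subset _ _) (by omega)
    have h15 : y ∈ ((Mf z).filter fun y => y ∈ Tf z ∨ z ∈ Tf y) := by rw [h14]; exact hy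
    exact (mem_filter.1 h15).2

end Pool.Agent.SulTree
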