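import Pool.Agent.SulTree.Base
import Pool.Agent.SulFew.Main

/-!
# The two base cases: few non-neighbours, few transitive triangles
-/

set_option autoImplicit false
set_option linter.unusedSectionVars false

namespace Pool.Agent.SulTree

open Finset

section
variable {V : Type*} [DecidableEq V] {adj : V → V → Prop} [DecidableRel adj]

/-- Few non-neighbours of the vertices of minimum in-degree: the theorem of `SulFew`. -/
theorem sul_of_few (has : ∀ x y, adj x y → ¬ adj y x) {U : Finset V} (hU : U.Nonempty) {d : ℕ}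
    (h3 : ∀ x ∈ U, (∀ y ∈ U, (I adj U x).card ≤ (I adj U y).card) → (M adj U x).card ≤ d + 3) :
    ∃ v, Sul adj d U v := by
  have hne : Nonempty {x // x ∈ U} := hU.coe_sort
  let adj' : {x // x ∈ U} → {x // x ∈ U} → Prop := fun x y => adj x.1 y.1
  have hdec : DecidableRel adj' := fun x y => inferInstanceAs (Decidable (adj x.1 y.1))
  have has' : ∀ x y, adj' x y → ¬ adj' y x := fun x y h => has x.1 y.1 h
  have hi : ∀ v : {x // x ∈ U},
      ((SulFew.nin adj' v).map (Function.Embedding.subtype _)) = I adj U v.1 := by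
    intro v
    ext w
    rw [mem_map, mem_I]
    constructor
    · rintro ⟨w', hw', rfl⟩
      rw [SulFew.mem_nin] at hw'
      exact ⟨w'.2, hw'⟩
    · rintro ⟨h1, h2⟩
      exact ⟨⟨w, h1⟩, SulFew.mem_nin.2 h2, rfl⟩
  have hg : ∀ v : {x // x ∈ U},
      ((SulFew.gset adj' v).map (Function.Embedding.subtype _)) = M adj U v.1 := by
    intro v
    ext w
    rw [mem_map, mem_M]
    constructor
    · rintro ⟨w', hw', rfl⟩
      rw [SulFew.mem_g] at hw'
      exact ⟨w'.2, fun h => hw'.1 (Subtype.ext h), hw'.2⟩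
    · rintro ⟨h1, h2, h4⟩
      exact ⟨⟨w, h1⟩, SulFew.mem_g.2 ⟨fun h => h2 (congrArg Subtype.val h), h4⟩, rfl⟩
  have hl : ∀ v : {x // x ∈ U},
      ((SulFew.lset adj' v).map (Function.Embedding.subtype _)) = Z adj U v.1 := by
    intro v
    ext w
    rw [mem_map, mem_Z]
    constructor
    · rintro ⟨w', hw', rfl⟩
      rw [SulFew.mem_l] at hw'
      exact ⟨w'.2, fun h => hw'.1 (Subtype.ext h), hw'.2.1, fun u hu => hw'.2.2 ⟨u, hu⟩⟩
    · rintro ⟨h1, h2, h4, h5⟩
      exact ⟨⟨w, h1⟩, SulFew.mem_l.2 ⟨fun h => h2 (congrArg Subtype.val h), h4,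
        fun u => h5 u.1 u.2⟩, rfl⟩
  obtain ⟨v, _, hv⟩ := SulFew.main (adj := adj') has' (k := d + 3) (by omega) (by
    intro v hmin
    rw [← card_map (Function.Embedding.subtype _), hg]
    refine h3 v.1 v.2 ?_
    intro y hy
    have := hmin ⟨y, hy⟩
    rw [← card_map (Function.Embedding.subtype _), hi,
      ← card_map (Function.Embedding.subtype _), hi] at this
    exact this)
  refine ⟨v.1, v.2, ?_⟩
  rw [← hg, ← hl, card_map, card_map]
  have h1 := SulFew.card_eq (adj := adj') has' v
  omega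

variable (adj)

/-- The arcs inside `U`. -/
def arcs (U : Finset V) : Finset (V × V) := (U ×ˢ U).filter fun p => adj p.1 p.2

/-- The transitive triangles `x → y → w`, `x → w` inside `U`. -/
def tri (U : Finset V) : Finset ((V × V) × V) :=
  (arcs adj U ×ˢ U).filter fun p => adj p.1.2 p.2 ∧ adj p.1.1 p.2

variable {adj}

/-- The out-neighbours of `v` in `U`. -/
def O (adj : V → V → Prop) [DecidableRel adj] (U : Finset V) (v : V) : Finset V :=
  U.filter fun w => adj v w

theorem mem_O {U : Finset V} {v w : V} : w ∈ O adj U v ↔ w ∈ U ∧ adj v w := by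
  unfold O; rw [mem_filter]

theorem card_split (has : ∀ x y, adj x y → ¬ adj y x) {U : Finset V} {v : V} (hv : v ∈ U) :
    U.card = (O adj U v).card + (I adj U v).card + (M adj U v).card + 1 := by
  have h1 := card_filter_add_card_filter_not (s := U) (fun w => adj v w)
  have h2 := card_filter_add_card_filter_not (s := U.filter fun w => ¬ adj v w) (fun w => adj w v)
  have h3 : (U.filter fun w => ¬ adj v w).filter (fun w => adj w v) = I adj U v := by
    ext w
    rw [mem_filter, mem_filter, mem_I]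
    exact ⟨fun h => ⟨h.1.1, h.2⟩, fun h => ⟨⟨h.1, has _ _ h.2⟩, h.2⟩⟩
  have h4 : (U.filter fun w => ¬ adj v w).filter (fun w => ¬ adj w v) =
      insert v (M adj U v) := by
    ext w
    rw [mem_filter, mem_filter, mem_insert, mem_M]
    constructor
    · rintro ⟨⟨h5, h6⟩, h7⟩
      by_cases h : w = v
      · exact Or.inl h
      · exact Or.inr ⟨h5, h, h6, h7⟩
    · rintro (rfl | ⟨h5, _, h6, h7⟩)
      · have := fun h : adj w w => has w w h h
        exact ⟨⟨hv, this⟩, this⟩
      · exact ⟨⟨h5, h6⟩, h7⟩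
  have h5 : v ∉ M adj U v := fun h => (mem_M.1 h).2.1 rfl
  rw [h3, h4, card_insert_of_notMem h5] at h2
  unfold O
  omega

/-- The second out-neighbours of `v` in `U`. -/
def N2 (adj : V → V → Prop) [DecidableRel adj] (U : Finset V) (v : V) : Finset V :=
  U.filter fun w => w ≠ v ∧ ¬ adj v w ∧ ∃ u ∈ U, adj v u ∧ adj u w

theorem card_split' (has : ∀ x y, adj x y → ¬ adj y x) {U : Finset V} {v : V} (hv : v ∈ U) :
    U.card = (O adj U v).card + (N2 adj U v).card + (Z adj U v).card + 1 := by
  have h1 := card_filter_add_card_filter_not (s := U) (fun w => adj v w)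
  have h2 := card_filter_add_card_filter_not (s := U.filter fun w => ¬ adj v w)
    (fun w => w ≠ v ∧ ∃ u ∈ U, adj v u ∧ adj u w)
  have h3 : (U.filter fun w => ¬ adj v w).filter
      (fun w => w ≠ v ∧ ∃ u ∈ U, adj v u ∧ adj u w) = N2 adj U v := by
    unfold N2
    ext w
    rw [mem_filter, mem_filter, mem_filter]
    tauto
  have h4 : (U.filter fun w => ¬ adj v w).filter
      (fun w => ¬ (w ≠ v ∧ ∃ u ∈ U, adj v u ∧ adj u w)) = insert v (Z adj U v) := by
    ext w
    rw [mem_filter, mem_filter, mem_insert, mem_Z]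
    constructor
    · rintro ⟨⟨h5, h6⟩, h7⟩
      by_cases h : w = v
      · exact Or.inl h
      · exact Or.inr ⟨h5, h, h6, fun u hu h8 h9 => h7 ⟨h, u, hu, h8, h9⟩⟩
    · rintro (rfl | ⟨h5, h8, h6, h7⟩)
      · exact ⟨⟨hv, fun h => has w w h h⟩, fun h => h.1 rfl⟩
      · exact ⟨⟨h5, h6⟩, fun ⟨_, u, hu, h9, h10⟩ => h7 u hu h9 h10⟩
  have h5 : v ∉ Z adj U v := fun h => (mem_Z.1 h).2.1 rfl
  rw [h3, h4, card_insert_of_notMem h5] at h2
  unfold O
  omega

theorem sul_iff (has : ∀ x y, adj x y → ¬ adj y x) {U : Finset V} {v : V} {d : ℕ} (hv : v ∈ U) :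
    Sul adj d U v ↔ (I adj U v).card ≤ (N2 adj U v).card + d := by
  have h1 := card_split has hv
  have h2 := card_split' has hv
  unfold Sul
  constructor
  · rintro ⟨_, h⟩
    omega
  · intro h
    exact ⟨hv, by omega⟩

/-- Few transitive triangles. -/
theorem sul_of_tri (has : ∀ x y, adj x y → ¬ adj y x) {U : Finset V} {d : ℕ}
    (h : (tri adj U).card < (d + 1) * (arcs adj U).card) : ∃ v, Sul adj d U v := by
  by_contra hcon
  push Not at hcon
  have hZ : ∀ v ∈ U, (M adj U v).card + d + 1 ≤ (Z adj U v).card := by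
    intro v hv
    by_contra hc
    exact hcon v ⟨hv, by omega⟩
  -- for every arc
  have harc : ∀ p ∈ arcs adj U,
      (O adj U p.2).card + (d + 1) ≤ (I adj U p.1).card + (O adj U p.2 ∩ O adj U p.1).card := by
    rintro ⟨v, u⟩ hp
    unfold arcs at hp
    rw [mem_filter, mem_product] at hp
    obtain ⟨⟨hv, hu⟩, hvu⟩ := hp
    simp only at hv hu hvu ⊢
    have hdis : Disjoint (O adj U u \ O adj U v) (Z adj U v) := by
      rw [Finset.disjoint_left]
      intro w hw hw'
      rw [mem_sdiff, mem_O] at hw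
      exact (mem_Z.1 hw').2.2.2 u hu hvu hw.1.2
    have hsub : (O adj U u \ O adj U v) ∪ Z adj U v ⊆ I adj U v ∪ M adj U v := by
      intro w hw
      rw [mem_union] at hw
      rw [mem_union, mem_I, mem_M]
      have : w ∈ U ∧ w ≠ v ∧ ¬ adj v w := by
        rcases hw with hw | hw
        · rw [mem_sdiff, mem_O, mem_O] at hw
          refine ⟨hw.1.1, ?_, fun h => hw.2 ⟨hw.1.1, h⟩⟩
          rintro rfl
          exact has _ _ hvu hw.1.2
        · have := mem_Z.1 hw
          exact ⟨this.1, this.2.1, this.2.2.1⟩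
      by_cases h : adj w v
      · exact Or.inl ⟨this.1, h⟩
      · exact Or.inr ⟨this.1, this.2.1, this.2.2, h⟩
    have h1 := card_le_card hsub
    rw [card_union_of_disjoint hdis] at h1
    have h2 := card_union_le (I adj U v) (M adj U v)
    have h3 := hZ v hv
    have h4 : (O adj U u ∩ O adj U v).card + (O adj U u \ O adj U v).card =
      (O adj U u).card := card_inter_add_card_sdiff _ _
    omega
  obtain ⟨e, he⟩ : ∃ e, e = d + 1 := ⟨_, rfl⟩
  rw [← he] at harc h
  have hsum := sum_le_sum harc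
  rw [sum_add_distrib, sum_add_distrib, sum_const, smul_eq_mul] at hsum
  have htri : ∑ p ∈ arcs adj U, (O adj U p.2 ∩ O adj U p.1).card = (tri adj U).card := by
    unfold tri
    rw [card_filter, sum_product]
    refine sum_congr rfl ?_
    intro p _
    rw [← card_filter]
    congr 1
    ext w
    rw [mem_inter, mem_O, mem_O, mem_filter]
    tauto
  have hO : ∑ p ∈ arcs adj U, (O adj U p.2).card = ∑ v ∈ U, (I adj U v).card * (O adj U v).card := by
    unfold arcs
    rw [sum_filter, sum_product_right]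
    refine sum_congr rfl ?_
    intro v _
    rw [← sum_filter]
    simp only
    rw [sum_const, smul_eq_mul]
    rfl
  have hI : ∑ p ∈ arcs adj U, (I adj U p.1).card = ∑ v ∈ U, (I adj U v).card * (O adj U v).card := by
    unfold arcs
    rw [sum_filter, sum_product]
    refine sum_congr rfl ?_
    intro v _
    rw [← sum_filter]
    simp only
    rw [sum_const, smul_eq_mul, mul_comm]
    rfl
  rw [htri, hO, hI, mul_comm (arcs adj U).card e] at hsum
  omega

end

end Pool.Agent.SulTree
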