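import Pool.Agent.SulTree.Pf

/-!
# The contradiction for at most as many non-adjacent pairs as vertices
-/

set_option autoImplicit false
set_option linter.unusedSectionVars false

namespace Pool.Agent.SulTree

open Finset

section
variable {V : Type*} [DecidableEq V] {adj : V → V → Prop} [DecidableRel adj]

namespace Dat

variable {U : Finset V} {a : V → V} {Tf : V → Finset V}

/-- A state with the largest number of closed sets met, whose vertex `q` can be kept. -/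
theorem good_state (D : Dat adj U a Tf) (hU : U.Nonempty) :
    ∃ X q, Valid adj U (X, q) ∧
      (∀ X' u, Valid adj U (X', u) → (Hit U Tf X').card ≤ (Hit U Tf X).card) ∧
      ¬ (q ∈ V2 U Tf ∧ (Z adj U (a q)).card ≤ 2) := by
  classical
  obtain ⟨St, hSt⟩ : ∃ St : Finset (Finset V × V), ∀ σ, σ ∈ St ↔ Valid adj U σ := by
    refine ⟨(U.powerset ×ˢ U).filter fun σ => Valid adj U σ, ?_⟩
    intro σ
    rw [mem_filter, mem_product, mem_powerset]
    exact ⟨fun h => h.2, fun h => ⟨⟨h.1, h.1 h.2.1⟩, h⟩⟩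
  obtain ⟨u0, hu0⟩ := hU
  have hne : St.Nonempty := by
    refine ⟨({u0}, u0), (hSt _).2 ⟨?_, mem_singleton_self _, ?_⟩⟩
    · simpa using hu0
    · intro x hx hne
      exact absurd (mem_singleton.1 hx) hne
  obtain ⟨σ0, hσ0, hmax⟩ := St.exists_max_image (fun σ => (Hit U Tf σ.1).card) hne
  by_contra hcon
  push Not at hcon
  -- all states with the maximal number have a bad vertex
  have hbad : ∀ σ, Valid adj U σ → (Hit U Tf σ0.1).card ≤ (Hit U Tf σ.1).card →
      σ.2 ∈ V2 U Tf ∧ (Z adj U (a σ.2)).card ≤ 2 := by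
    intro σ hσ hle
    exact hcon σ.1 σ.2 hσ (fun X' u h => (hmax (X', u) ((hSt _).2 h)).trans hle)
  obtain ⟨St', hSt'⟩ : ∃ St' : Finset (Finset V × V), ∀ σ, σ ∈ St' ↔ Valid adj U σ ∧
      (Hit U Tf σ0.1).card ≤ (Hit U Tf σ.1).card := by
    refine ⟨St.filter fun σ => (Hit U Tf σ0.1).card ≤ (Hit U Tf σ.1).card, ?_⟩
    intro σ
    rw [mem_filter, hSt]
  obtain ⟨σ1, hσ1, hmax1⟩ := St'.exists_max_image
    (fun σ => (σ.1.filter fun x => x ∈ V2 U Tf ∧ (Z adj U (a x)).card ≤ 2).card)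
    ⟨σ0, (hSt' _).2 ⟨(hSt _).1 hσ0, le_rfl⟩⟩
  obtain ⟨hv1, hle1⟩ := (hSt' _).1 hσ1
  have hu1 : σ1.2 ∈ U := hv1.1 hv1.2.1
  obtain ⟨t, ht⟩ : (Z adj U σ1.2).Nonempty := card_pos.1 (by have := D.z_two hu1; omega)
  have hv1' : Valid adj U (σ1.1, σ1.2) := hv1
  obtain ⟨hv2, htX, htX', hrem⟩ := D.step hv1' ht
  have hle2 : (Hit U Tf σ0.1).card ≤ (Hit U Tf (nxt adj U σ1.1 t).1).card :=
    hle1.trans (card_le_card (D.hit_mono hv1' ht))
  have htbad := hbad _ hv2 hle2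
  have h1 := hmax1 _ ((hSt' _).2 ⟨hv2, hle2⟩)
  have h2 : insert t (σ1.1.filter fun x => x ∈ V2 U Tf ∧ (Z adj U (a x)).card ≤ 2) ⊆
      ((nxt adj U σ1.1 t).1.filter fun x => x ∈ V2 U Tf ∧ (Z adj U (a x)).card ≤ 2) := by
    intro x hx
    rcases mem_insert.1 hx with rfl | hx
    · exact mem_filter.2 ⟨htX', htbad⟩
    · rw [mem_filter] at hx ⊢
      refine ⟨?_, hx.2⟩
      by_contra hcon'
      exact D.bad_no hx.2.1 hx.2.2 (hrem x hx.1 hcon').1 htbad.2
  have h3 := card_le_card h2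
  rw [card_insert_of_notMem (fun h => htX (mem_filter.1 h).1)] at h3
  omega

theorem false (D : Dat adj U a Tf) (hU : U.Nonempty) : False := by
  classical
  obtain ⟨X0, q, hv0, hmax, hgood⟩ := D.good_state hU
  have hq : q ∈ U := hv0.1 hv0.2.1
  obtain ⟨S, hS⟩ : ∃ S : Finset V, ∀ t, t ∈ S ↔ t ∈ U ∧ adj t q ∧
      ∀ C ⊆ U, (∀ x ∈ C, Tf x ⊆ C) → t ∈ C → (X0 ∩ C).Nonempty :=
    ⟨U.filter fun t => adj t q ∧ ∀ C ⊆ U, (∀ x ∈ C, Tf x ⊆ C) → t ∈ C → (X0 ∩ C).Nonempty,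
      fun t => mem_filter⟩
  have hnq : ∀ x ∈ X0, ¬ adj x q := by
    intro x hx h
    by_cases hxq : x = q
    · subst hxq
      exact D.has _ _ h h
    · exact D.has _ _ h (hv0.2.2 x hx hxq)
  refine no_states (fun σ : Finset V × V => σ.1)
    (fun x t => t ∈ Tf x ∧ (x ∈ V2 U Tf → a x = q ∨ adj (a x) q)) S.card S
    (fun σ => Valid adj U σ ∧ q ∈ σ.1 ∧ Hit U Tf X0 ⊆ Hit U Tf σ.1) rfl
    ⟨(X0, q), hv0, hv0.2.1, Subset.rfl⟩ ?_ ?_
  · -- no cycle of the removal relation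
    intro S' hS' hne
    by_contra hcon
    push Not at hcon
    have hSU : ∀ x ∈ S', x ∈ U := fun x hx => ((hS x).1 (hS' hx)).1
    by_cases hV : ∃ x ∈ S', x ∈ V2 U Tf
    · obtain ⟨x0, hx0, hx0V⟩ := hV
      obtain ⟨x1, hx1, hx01, hax0⟩ := hcon x0 hx0
      have hx1V := D.v2_of hx0V hx01
      obtain ⟨x2, hx2, hx12, hax1⟩ := hcon x1 hx1
      have hα := hax0 hx0V
      have hβ := hax1 hx1V
      have hx10 := (D.c2 x0 hx0V).2.2 x1 hx01
      have hab := (mem_sdiff.1 (D.both (hSU x0 hx0) hx01 hx10)).1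
      have hba := (mem_sdiff.1 (D.both (hSU x1 hx1) hx10 hx01)).1
      obtain ⟨C, hC⟩ : ∃ C : Finset V, ∀ x, x ∈ C ↔ x ∈ U ∧ x ∈ V2 U Tf ∧
          ((a x = a x0 ∧ x ∈ Z adj U (a x1)) ∨ (a x = a x1 ∧ x ∈ Z adj U (a x0))) :=
        ⟨U.filter fun x => x ∈ V2 U Tf ∧
          ((a x = a x0 ∧ x ∈ Z adj U (a x1)) ∨ (a x = a x1 ∧ x ∈ Z adj U (a x0))),
          fun x => mem_filter⟩
      have hCU : C ⊆ U := fun x hx => ((hC x).1 hx).1
      -- one step
      have hone : ∀ x t β, x ∈ V2 U Tf → t ∈ Tf x → β ∈ M adj U (a x) → x ∈ Z adj U β →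
          a t = β ∧ t ∈ Z adj U (a x) := by
        intro x t β hxV ht hβM hxβ
        have hxU := (mem_V2.1 hxV).1
        have h1 := D.both hxU ht ((D.c2 x hxV).2.2 t ht)
        have h2 : β ∈ M adj U (a x) \ I adj U x :=
          mem_sdiff.2 ⟨hβM, fun h => (mem_Z.1 hxβ).2.2.1 (mem_I.1 h).2⟩
        exact ⟨(card_le_one.1 (D.c2 x hxV).2.1.le) _ h1 _ h2, D.tz ht⟩
      have hcl : ∀ x ∈ C, Tf x ⊆ C := by
        intro x hx t ht
        obtain ⟨hxU, hxV, hx'⟩ := (hC x).1 hx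
        refine (hC t).2 ⟨D.tu ht, D.v2_of hxV ht, ?_⟩
        rcases hx' with ⟨h1, h2⟩ | ⟨h1, h2⟩
        · have h3 := hone x t (a x1) hxV ht (by rw [h1]; exact hab) h2
          rw [h1] at h3
          exact Or.inr h3
        · have h3 := hone x t (a x0) hxV ht (by rw [h1]; exact hba) h2
          rw [h1] at h3
          exact Or.inl h3
      have hx0C : x0 ∈ C := (hC x0).2 ⟨hSU x0 hx0, hx0V, Or.inl ⟨rfl, D.tz hx10⟩⟩
      obtain ⟨x', hx'⟩ := ((hS x0).1 (hS' hx0)).2.2 C hCU hcl hx0C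
      rw [mem_inter] at hx'
      have hfin : ∀ γ, (γ = q ∨ adj γ q) → x' ∈ Z adj U γ → False := by
        intro γ hγ hx''
        have h1 := mem_Z.1 hx''
        by_cases hxq : x' = q
        · rcases hγ with rfl | hγ
          · exact h1.2.1 hxq
          · rw [hxq] at h1
            exact h1.2.2.1 hγ
        · have h2 := hv0.2.2 x' hx'.1 hxq
          rcases hγ with rfl | hγ
          · exact h1.2.2.1 h2
          · exact h1.2.2.2 q hq hγ h2
      rcases ((hC x').1 hx'.2).2.2 with ⟨_, h⟩ | ⟨_, h⟩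
      · exact hfin _ hβ h
      · exact hfin _ hα h
    · push Not at hV
      have hcl : ∀ x ∈ S', Tf x ⊆ S' := by
        intro x hx t ht
        obtain ⟨t', ht', hxt', _⟩ := hcon x hx
        have h1 := (D.c1 x (hSU x hx) (hV x hx)).1
        rw [card_le_one.1 h1.le t ht t' hxt']
        exact ht'
      obtain ⟨s, hs⟩ := hne
      obtain ⟨x', hx'⟩ := ((hS s).1 (hS' hs)).2.2 S' hSU hcl hs
      rw [mem_inter] at hx'
      exact hnq x' hx'.1 ((hS x').1 (hS' hx'.2)).2.1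
  · -- the step
    rintro ⟨X, u⟩ ⟨hv, hqX, hHit⟩
    simp only at hqX hHit
    have hu : u ∈ U := hv.1 hv.2.1
    have huq : u = q ∨ adj u q := by
      by_cases h : q = u
      · exact Or.inl h.symm
      · exact Or.inr (hv.2.2 q hqX h)
    obtain ⟨t, ht, htq⟩ := D.keep hq hu huq hgood
    obtain ⟨hv', htX, htX', hrem⟩ := D.step hv ht
    have hmono := D.hit_mono hv ht
    have hq' : q ∈ (nxt adj U X t).1 := by
      unfold nxt
      refine mem_insert.2 (Or.inr (mem_sdiff.2 ⟨hqX, ?_⟩))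
      intro h
      exact htq (M_symm (mem_Z.1 ht).1 h)
    refine ⟨nxt adj U X t, t, ⟨hv', hq', hHit.trans hmono⟩, ?_, htX, htX', ?_⟩
    · refine (hS t).2 ⟨(mem_Z.1 ht).1, ?_, ?_⟩
      · have htq' : q ≠ t := fun h => htX (h ▸ hqX)
        exact hv'.2.2 q hq' htq'
      · intro C hCU hcl htC
        have h1 : C ∈ Hit U Tf (nxt adj U X t).1 :=
          mem_filter.2 ⟨mem_powerset.2 hCU, hcl, ⟨t, mem_inter.2 ⟨htX', htC⟩⟩⟩
        have h2 : Hit U Tf X0 = Hit U Tf (nxt adj U X t).1 :=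
          eq_of_subset_of_card_le (hHit.trans hmono) (hmax _ _ hv')
        rw [← h2] at h1
        exact (mem_filter.1 h1).2.2
    · intro x hx _ hxn
      have h1 := hrem x hx hxn
      refine ⟨h1.1, fun hV => ?_⟩
      rw [← h1.2 hV]
      exact huq

end Dat

/-- If `U` has at most `|U|` non-adjacent pairs, and every nonempty in-neighbourhood in `U` has a
vertex as wanted, then `U` has one. -/
theorem sul_of_pf (has : ∀ x y, adj x y → ¬ adj y x) {d : ℕ} {U : Finset V} (hU : U.Nonempty)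
    (hpf : ∑ x ∈ U, (M adj U x).card ≤ 2 * U.card)
    (hmin : ∀ z ∈ U, (I adj U z).Nonempty → ∃ v, Sul adj d (I adj U z) v) :
    ∃ v, Sul adj d U v := by
  by_contra hcon
  push Not at hcon
  have hex : ∀ z, ∃ a, z ∈ U → a ∈ U ∧ adj a z ∧
      (M adj U a \ I adj U z).card + 1 ≤ (Z adj U a ∩ M adj U z).card := by
    intro z
    by_cases hz : z ∈ U
    · obtain ⟨a, ha⟩ := exists_good hcon hmin hz
      exact ⟨a, fun _ => ha⟩
    · exact ⟨z, fun h => absurd h hz⟩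
  choose a ha using hex
  obtain ⟨Tf, hTf⟩ : ∃ Tf : V → Finset V, ∀ z, Tf z = Z adj U (a z) ∩ M adj U z :=
    ⟨_, fun _ => rfl⟩
  have hcount := count U (fun z => M adj U z) Tf (fun z => (M adj U (a z) \ I adj U z).card)
    (by
      intro z _
      rw [hTf]
      exact inter_subset_right)
    (by
      intro z _
      exact filter_subset _ _)
    (by
      intro x hx y hy
      exact M_symm hx hy)
    (by
      intro z hz
      rw [hTf]
      exact (ha z hz).2.2)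
    (by
      intro z hz y hy hzy
      rw [hTf] at hy hzy
      have hyU := (mem_M.1 (mem_inter.1 hy).2).1
      exact card_pos.2 ⟨a y, two_sided (ha z hz).1 (ha y hyU).1 (ha z hz).2.1 (ha y hyU).2.1
        (mem_inter.1 hy).1 (mem_inter.1 hzy).1⟩)
    hpf
  refine Dat.false (a := a) (Tf := Tf) (adj := adj) (U := U) ⟨has, fun z hz => (ha z hz).1,
    fun z hz => (ha z hz).2.1, hTf, ?_, ?_, hcount.1, hcount.2.1, hcount.2.2⟩ hU
  · intro u hu
    by_contra hc
    exact hcon u ⟨hu, by omega⟩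
  · intro z hz
    rw [hTf]
    exact (ha z hz).2.2

end

end Pool.Agent.SulTree
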