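import Pool.Agent.SulTree.Tree
import Pool.Agent.SulTree.Few
import Pool.Agent.SulTree.Pf2

/-!
# Families of vertex sets closed under in-neighbourhoods
-/

set_option autoImplicit false
set_option linter.unusedSectionVars false

namespace Pool.Agent.SulTree

open Finset

theorem fromRel_eq {V : Type*} (adj : V → V → Prop) :
    SimpleGraph.fromRel (fun x y => ¬ adj x y ∧ ¬ adj y x) = co adj := by
  ext x y
  rw [SimpleGraph.fromRel_adj]
  unfold co
  simp only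
  tauto

theorem exists_sul {V : Type*} [Fintype V] [DecidableEq V] {adj : V → V → Prop}
    [DecidableRel adj] (has : ∀ x y, adj x y → ¬ adj y x) (d : ℕ) (F : Set V → Prop)
    (h : ∀ U : Set V, F U → U.Nonempty →
      (U ≠ Set.univ ∧ ∃ v ∈ U, {w | w ∈ U ∧ adj w v}.ncard ≤
        {w | w ∈ U ∧ w ≠ v ∧ ¬ adj v w ∧ ∃ u ∈ U, adj v u ∧ adj u w}.ncard + d) ∨
      (∀ x ∈ U, (∀ y ∈ U, {w | w ∈ U ∧ adj w x}.ncard ≤ {w | w ∈ U ∧ adj w y}.ncard) →
        {w | w ∈ U ∧ w ≠ x ∧ ¬ adj x w ∧ ¬ adj w x}.ncard ≤ d + 3) ∨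
      {p : V × V × V | p.1 ∈ U ∧ p.2.1 ∈ U ∧ p.2.2 ∈ U ∧
        adj p.1 p.2.1 ∧ adj p.2.1 p.2.2 ∧ adj p.1 p.2.2}.ncard <
        (d + 1) * {p : V × V | p.1 ∈ U ∧ p.2 ∈ U ∧ adj p.1 p.2}.ncard ∨
      (((∃ K ⊆ U, K.Nonempty ∧ (∀ x ∈ K, ∀ y ∈ U, x ≠ y → ¬ adj x y → ¬ adj y x → y ∈ K) ∧
        ((SimpleGraph.fromRel fun x y => ¬ adj x y ∧ ¬ adj y x).induce K).IsAcyclic) ∨
        {p : V × V | p.1 ∈ U ∧ p.2 ∈ U ∧ p.1 ≠ p.2 ∧ ¬ adj p.1 p.2 ∧ ¬ adj p.2 p.1}.ncard ≤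
          2 * U.ncard) ∧
        ∀ z ∈ U, F {w | w ∈ U ∧ adj w z}) ∨
      ∃ C ⊆ U, C ≠ U ∧ C.Nonempty ∧ F C ∧ ∀ x ∈ U, x ∉ C → ∀ y ∈ C, ¬ adj x y) :
    ∀ (m : ℕ) (U : Finset V), U.card = m → F (U : Set V) → U.Nonempty → ∃ v, Sul adj d U v := by
  intro m
  induction m using Nat.strong_induction_on with
  | _ m ih =>
    intro U hm hFU hU
    have hI : ∀ x, ({w | w ∈ (U : Set V) ∧ adj w x} : Set V) = (I adj U x : Set V) := by
      intro x
      ext w
      rw [Set.mem_ofPred_eq, mem_coe, mem_coe, mem_I]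
    have hM : ∀ x, ({w | w ∈ (U : Set V) ∧ w ≠ x ∧ ¬ adj x w ∧ ¬ adj w x} : Set V) =
        (M adj U x : Set V) := by
      intro x
      ext w
      rw [Set.mem_ofPred_eq, mem_coe, mem_coe, mem_M]
    have hN : ∀ x, ({w | w ∈ (U : Set V) ∧ w ≠ x ∧ ¬ adj x w ∧
        ∃ u ∈ (U : Set V), adj x u ∧ adj u w} : Set V) = (N2 adj U x : Set V) := by
      intro x
      ext w
      unfold N2
      rw [Set.mem_ofPred_eq, mem_coe, mem_coe, mem_filter]
      simp only [mem_coe]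
    rcases h U hFU (by exact_mod_cast hU) with ⟨_, v, hv, h1⟩ | h1 | h1 |
      ⟨hpf, hF⟩ | ⟨C, hCU, hne, hC, hFC, hcl⟩
    · rw [hI, hN, Set.ncard_coe_finset, Set.ncard_coe_finset] at h1
      exact ⟨v, (sul_iff has hv).2 h1⟩
    · refine sul_of_few has hU ?_
      intro x hx hmin
      have := h1 x hx (by
        intro y hy
        rw [hI, hI, Set.ncard_coe_finset, Set.ncard_coe_finset]
        exact hmin y hy)
      rwa [hM, Set.ncard_coe_finset] at this
    · refine sul_of_tri has ?_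
      have ha : ({p : V × V | p.1 ∈ (U : Set V) ∧ p.2 ∈ (U : Set V) ∧ adj p.1 p.2} :
          Set (V × V)) = (arcs adj U : Set (V × V)) := by
        ext p
        unfold arcs
        rw [Set.mem_ofPred_eq, mem_coe, mem_coe, mem_coe, mem_filter, mem_product, and_assoc]
      have ht : ({p : V × V × V | p.1 ∈ (U : Set V) ∧ p.2.1 ∈ (U : Set V) ∧
          p.2.2 ∈ (U : Set V) ∧ adj p.1 p.2.1 ∧ adj p.2.1 p.2.2 ∧ adj p.1 p.2.2} :
          Set (V × V × V)).ncard = (tri adj U).card := by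
        rw [← Set.ncard_coe_finset]
        refine Set.ncard_congr (fun p _ => ((p.1, p.2.1), p.2.2)) ?_ ?_ ?_
        · intro p hp
          rw [Set.mem_ofPred_eq] at hp
          unfold tri arcs
          rw [mem_coe, mem_filter, mem_product, mem_filter, mem_product]
          simp only [mem_coe] at hp
          exact ⟨⟨⟨⟨hp.1, hp.2.1⟩, hp.2.2.2.1⟩, hp.2.2.1⟩, hp.2.2.2.2.1, hp.2.2.2.2.2⟩
        · rintro ⟨a, b, c⟩ ⟨a', b', c'⟩ _ _ hab
          simp only [Prod.mk.injEq] at hab ⊢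
          tauto
        · rintro ⟨⟨a, b⟩, c⟩ hp
          unfold tri arcs at hp
          rw [mem_coe, mem_filter, mem_product, mem_filter, mem_product] at hp
          refine ⟨(a, b, c), ?_, rfl⟩
          rw [Set.mem_ofPred_eq]
          simp only [mem_coe]
          exact ⟨hp.1.1.1.1, hp.1.1.1.2, hp.1.2, hp.1.1.2, hp.2.1, hp.2.2⟩
      rw [ha, ht, Set.ncard_coe_finset] at h1
      exact h1
    · have hmin : ∀ z ∈ U, (I adj U z).Nonempty → ∃ v, Sul adj d (I adj U z) v := by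
        intro z hz hne
        refine ih (I adj U z).card ?_ (I adj U z) rfl ?_ hne
        · rw [← hm]
          refine card_lt_card ⟨filter_subset _ _, fun hsub => ?_⟩
          have := (mem_I.1 (hsub hz)).2
          exact has _ _ this this
        · rw [← hI]
          exact hF z hz
      rcases hpf with ⟨K, hKU, hK, hcl, hac⟩ | hpf
      · have hfin : K.Finite := U.finite_toSet.subset hKU
        rw [fromRel_eq] at hac
        refine sul_of_tree (K := hfin.toFinset) ?_ ?_ ?_ ?_ hmin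
        · intro x hx
          rw [Set.Finite.mem_toFinset] at hx
          exact hKU hx
        · rwa [Set.Finite.toFinset_nonempty]
        · intro x hx y hy hxy
          rw [Set.Finite.mem_toFinset] at hx ⊢
          exact hcl x hx y hy hxy.1 hxy.2.1 hxy.2.2
        · rwa [Set.Finite.coe_toFinset]
      · refine sul_of_pf has hU ?_ hmin
        rw [Set.ncard_coe_finset] at hpf
        refine le_trans (le_of_eq ?_) hpf
        have hp : ({p : V × V | p.1 ∈ (U : Set V) ∧ p.2 ∈ (U : Set V) ∧ p.1 ≠ p.2 ∧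
            ¬ adj p.1 p.2 ∧ ¬ adj p.2 p.1} : Set (V × V)) =
            (((U ×ˢ U).filter fun p => p.2 ∈ M adj U p.1 : Finset (V × V)) : Set (V × V)) := by
          ext p
          rw [Set.mem_ofPred_eq, mem_coe, mem_coe, mem_coe, mem_filter, mem_product, mem_M]
          constructor
          · rintro ⟨h1, h2, h3, h4, h5⟩
            exact ⟨⟨h1, h2⟩, h2, h3.symm, h4, h5⟩
          · rintro ⟨⟨h1, h2⟩, _, h3, h4, h5⟩
            exact ⟨h1, h2, h3.symm, h4, h5⟩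
        rw [hp, Set.ncard_coe_finset, card_filter, sum_product]
        refine sum_congr rfl ?_
        intro x _
        rw [← card_filter]
        congr 1
        ext y
        rw [mem_filter]
        exact ⟨fun h => ⟨(mem_M.1 h).1, h⟩, fun h => h.2⟩
    · have hfin : C.Finite := U.finite_toSet.subset hCU
      have hCU' : hfin.toFinset ⊆ U := by
        intro x hx
        rw [Set.Finite.mem_toFinset] at hx
        exact hCU hx
      obtain ⟨v, hv⟩ := ih hfin.toFinset.card (by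
        rw [← hm]
        refine card_lt_card ⟨hCU', fun hsub => hne ?_⟩
        refine Set.Subset.antisymm hCU fun x hx => ?_
        have := hsub hx
        rwa [Set.Finite.mem_toFinset] at this) hfin.toFinset rfl (by
          rw [Set.Finite.coe_toFinset]; exact hFC) (by
          rwa [Set.Finite.toFinset_nonempty])
      refine ⟨v, sul_of_closed hCU' ?_ hv⟩
      intro x hx hxC y hy
      rw [Set.Finite.mem_toFinset] at hxC hy
      exact hcl x hx hxC y hy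

/-- The main theorem. -/
theorem main (n : ℕ) (adj : Fin n → Fin n → Prop) (hn : 0 < n) (has : ∀ x y, adj x y → ¬ adj y x)
    (d : ℕ) (F : Set (Fin n) → Prop) (hF : F Set.univ)
    (h : ∀ U : Set (Fin n), F U → U.Nonempty →
      (U ≠ Set.univ ∧ ∃ v ∈ U, {w | w ∈ U ∧ adj w v}.ncard ≤
        {w | w ∈ U ∧ w ≠ v ∧ ¬ adj v w ∧ ∃ u ∈ U, adj v u ∧ adj u w}.ncard + d) ∨
      (∀ x ∈ U, (∀ y ∈ U, {w | w ∈ U ∧ adj w x}.ncard ≤ {w | w ∈ U ∧ adj w y}.ncard) →
        {w | w ∈ U ∧ w ≠ x ∧ ¬ adj x w ∧ ¬ adj w x}.ncard ≤ d + 3) ∨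
      {p : Fin n × Fin n × Fin n | p.1 ∈ U ∧ p.2.1 ∈ U ∧ p.2.2 ∈ U ∧
        adj p.1 p.2.1 ∧ adj p.2.1 p.2.2 ∧ adj p.1 p.2.2}.ncard <
        (d + 1) * {p : Fin n × Fin n | p.1 ∈ U ∧ p.2 ∈ U ∧ adj p.1 p.2}.ncard ∨
      (((∃ K ⊆ U, K.Nonempty ∧ (∀ x ∈ K, ∀ y ∈ U, x ≠ y → ¬ adj x y → ¬ adj y x → y ∈ K) ∧
        ((SimpleGraph.fromRel fun x y => ¬ adj x y ∧ ¬ adj y x).induce K).IsAcyclic) ∨
        {p : Fin n × Fin n | p.1 ∈ U ∧ p.2 ∈ U ∧ p.1 ≠ p.2 ∧ ¬ adj p.1 p.2 ∧ ¬ adj p.2 p.1}.ncard ≤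
          2 * U.ncard) ∧
        ∀ z ∈ U, F {w | w ∈ U ∧ adj w z}) ∨
      ∃ C ⊆ U, C ≠ U ∧ C.Nonempty ∧ F C ∧ ∀ x ∈ U, x ∉ C → ∀ y ∈ C, ¬ adj x y) :
    ∃ v : Fin n, {u : Fin n | adj u v}.ncard ≤
      {w : Fin n | w ≠ v ∧ ¬ adj v w ∧ ∃ u : Fin n, adj v u ∧ adj u w}.ncard + d := by
  classical
  have hne : (univ : Finset (Fin n)).Nonempty := ⟨⟨0, hn⟩, mem_univ _⟩
  obtain ⟨v, _, hv⟩ := exists_sul has d F h _ univ rfl (by rw [coe_univ]; exact hF) hne
  refine ⟨v, ?_⟩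
  rw [SulFew.ncard_nin, SulFew.ncard_yset]
  have h1 := SulFew.card_eq (adj := adj) has v
  have hg : SulFew.gset adj v = M adj univ v := by
    ext w
    rw [SulFew.mem_g, mem_M]
    simp
  have hl : SulFew.lset adj v = Z adj univ v := by
    ext w
    rw [SulFew.mem_l, mem_Z]
    simp
  rw [hg, hl] at h1
  omega

end Pool.Agent.SulTree
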