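import Pool.Agent.SulTree.Base
import Pool.Agent.SulTree.Count

/-!
# At most as many non-adjacent pairs as vertices
-/

set_option autoImplicit false
set_option linter.unusedSectionVars false

namespace Pool.Agent.SulTree

open Finset

/-- States with vertex sets `X`: a set `S` of vertices on which the removal relation `R` has no
cycle; every state has a successor that gains one new vertex `t` of `S` and loses, of the vertices of
`S`, only some `x` with `R x t`.  Then there is no state. -/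
theorem no_states {V St : Type*} [DecidableEq V] (X : St → Finset V) (R : V → V → Prop) :
    ∀ (n : ℕ) (S : Finset V) (P : St → Prop), S.card = n → (∃ σ, P σ) →
      (∀ S' ⊆ S, S'.Nonempty → ∃ s ∈ S', ∀ t ∈ S', ¬ R s t) →
      (∀ σ, P σ → ∃ σ' t, P σ' ∧ t ∈ S ∧ t ∉ X σ ∧ t ∈ X σ' ∧
        ∀ x ∈ X σ, x ∈ S → x ∉ X σ' → R x t) → False := by
  intro n
  induction n with
  | zero =>
    intro S P hS hσ _ hstep
    obtain ⟨σ, hσ⟩ := hσ
    obtain ⟨σ', t, _, ht, _⟩ := hstep σ hσ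
    rw [card_eq_zero.1 hS] at ht
    exact absurd ht (notMem_empty t)
  | succ n ih =>
    intro S P hS hσ hac hstep
    have hne : S.Nonempty := card_pos.1 (by omega)
    obtain ⟨s, hs, hsink⟩ := hac S Subset.rfl hne
    have hcard : (S.erase s).card = n := by
      rw [card_erase_of_mem hs]; omega
    have hac' : ∀ S' ⊆ S.erase s, S'.Nonempty → ∃ s ∈ S', ∀ t ∈ S', ¬ R s t :=
      fun S' hS' h => hac S' (hS'.trans (erase_subset _ _)) h
    by_cases hex : ∃ σ, P σ ∧ s ∈ X σ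
    · refine ih (S.erase s) (fun σ => P σ ∧ s ∈ X σ) hcard hex hac' ?_
      rintro σ ⟨hP, hsσ⟩
      obtain ⟨σ', t, hP', htS, htσ, htσ', hR⟩ := hstep σ hP
      have hts : t ≠ s := by
        rintro rfl
        exact htσ hsσ
      refine ⟨σ', t, ⟨hP', ?_⟩, mem_erase.2 ⟨hts, htS⟩, htσ, htσ', ?_⟩
      · by_contra hcon
        exact hsink t htS (hR s hsσ hs hcon)
      · intro x hx hxS hxσ'
        exact hR x hx (mem_of_mem_erase hxS) hxσ'
    · push Not at hex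
      refine ih (S.erase s) P hcard hσ hac' ?_
      intro σ hP
      obtain ⟨σ', t, hP', htS, htσ, htσ', hR⟩ := hstep σ hP
      have hts : t ≠ s := by
        rintro rfl
        exact hex σ' hP' htσ'
      refine ⟨σ', t, hP', mem_erase.2 ⟨hts, htS⟩, htσ, htσ', ?_⟩
      intro x hx hxS hxσ'
      exact hR x hx (mem_of_mem_erase hxS) hxσ'

section
variable {V : Type*} [DecidableEq V] (adj : V → V → Prop) [DecidableRel adj]

/-- What is known about a set `U` without a vertex as wanted that has at most `|U|` non-adjacent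
pairs. -/
structure Dat (U : Finset V) (a : V → V) (Tf : V → Finset V) : Prop where
  has : ∀ x y, adj x y → ¬ adj y x
  aU : ∀ z ∈ U, a z ∈ U
  az : ∀ z ∈ U, adj (a z) z
  tf : ∀ z, Tf z = Z adj U (a z) ∩ M adj U z
  zc : ∀ u ∈ U, (M adj U u).card + 1 ≤ (Z adj U u).card
  tc : ∀ z ∈ U, (M adj U (a z) \ I adj U z).card + 1 ≤ (Tf z).card
  c1 : ∀ z ∈ U, z ∉ V2 U Tf → (Tf z).card = 1 ∧ (M adj U (a z) \ I adj U z).card = 0
  c2 : ∀ z ∈ V2 U Tf, (Tf z).card = 2 ∧ (M adj U (a z) \ I adj U z).card = 1 ∧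
    ∀ y ∈ Tf z, z ∈ Tf y
  c3 : ∀ z ∈ U, ∀ y ∈ M adj U z, y ∈ Tf z ∨ z ∈ Tf y

/-- A state: `u` lies in `X` and dominates the rest of `X`. -/
def Valid (U : Finset V) (σ : Finset V × V) : Prop :=
  σ.1 ⊆ U ∧ σ.2 ∈ σ.1 ∧ ∀ x ∈ σ.1, x ≠ σ.2 → adj σ.2 x

/-- The next state. -/
def nxt (U : Finset V) (X : Finset V) (t : V) : Finset V × V := (insert t (X \ M adj U t), t)

/-- The closed sets met by `X`. -/
def Hit (U : Finset V) (Tf : V → Finset V) (X : Finset V) : Finset (Finset V) :=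
  U.powerset.filter fun C => (∀ x ∈ C, Tf x ⊆ C) ∧ (X ∩ C).Nonempty

variable {adj}

theorem M_symm {U : Finset V} {x y : V} (hx : x ∈ U) (h : y ∈ M adj U x) : x ∈ M adj U y := by
  rw [mem_M] at h
  exact mem_M.2 ⟨hx, h.2.1.symm, h.2.2.2, h.2.2.1⟩

namespace Dat

variable {U : Finset V} {a : V → V} {Tf : V → Finset V}

theorem tz (D : Dat adj U a Tf) {z y : V} (h : y ∈ Tf z) : y ∈ Z adj U (a z) := by
  rw [D.tf] at h
  exact (mem_inter.1 h).1

theorem tm (D : Dat adj U a Tf) {z y : V} (h : y ∈ Tf z) : y ∈ M adj U z := by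
  rw [D.tf] at h
  exact (mem_inter.1 h).2

theorem tu (D : Dat adj U a Tf) {z y : V} (h : y ∈ Tf z) : y ∈ U := (mem_M.1 (D.tm h)).1

theorem key (D : Dat adj U a Tf) {t y u : V} (ht : t ∈ U) (hy : y ∈ Tf t) (hu : u ∈ U)
    (huy : u = y ∨ adj u y) (htu : t ∈ Z adj U u) : u ∈ M adj U (a t) \ I adj U t := by
  rcases huy with rfl | huy
  · have h1 := mem_Z.1 (D.tz hy)
    have h2 := mem_M.1 (D.tm hy)
    have h3 : ¬ adj u (a t) := fun h => (mem_Z.1 htu).2.2.2 (a t) (D.aU t ht) h (D.az t ht)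
    refine mem_sdiff.2 ⟨mem_M.2 ⟨hu, h1.2.1, h1.2.2.1, h3⟩, ?_⟩
    intro h
    exact h2.2.2.2 (mem_I.1 h).2
  · exact two_sided (D.aU t ht) hu (D.az t ht) huy (D.tz hy) htu

theorem both (D : Dat adj U a Tf) {z y : V} (hz : z ∈ U) (hy : y ∈ Tf z) (hz' : z ∈ Tf y) :
    a y ∈ M adj U (a z) \ I adj U z :=
  two_sided (D.aU z hz) (D.aU y (D.tu hy)) (D.az z hz) (D.az y (D.tu hy)) (D.tz hy) (D.tz hz')

theorem v2_of (D : Dat adj U a Tf) {z y : V} (hz : z ∈ V2 U Tf) (hy : y ∈ Tf z) :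
    y ∈ V2 U Tf :=
  mem_V2.2 ⟨D.tu hy, z, (D.c2 z hz).2.2 y hy, hy⟩

theorem dagger (D : Dat adj U a Tf) {y u t : V} (hy : y ∈ U) (hu : u ∈ U)
    (huy : u = y ∨ adj u y) (ht : t ∈ Z adj U u) (hty : t ∈ M adj U y) :
    t ∈ Tf y ∧ (y ∈ V2 U Tf → u = a y) := by
  have htU : t ∈ U := (mem_M.1 hty).1
  have h1 : t ∈ Tf y := by
    rcases D.c3 y hy t hty with h | h
    · exact h
    · have h2 := D.key htU h hu huy ht
      by_cases hV : t ∈ V2 U Tf
      · exact (D.c2 t hV).2.2 y h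
      · have h3 := (D.c1 t htU hV).2
        rw [card_eq_zero] at h3
        rw [h3] at h2
        exact absurd h2 (notMem_empty _)
  refine ⟨h1, fun hV => ?_⟩
  have h2 := (D.c2 y hV).2.2 t h1
  have h3 := D.key htU h2 hu huy ht
  have hV' := D.v2_of hV h1
  have h4 := D.both htU h2 h1
  exact (card_le_one.1 (D.c2 t hV').2.1.le) u h3 (a y) h4

theorem z_two (D : Dat adj U a Tf) {u : V} (hu : u ∈ U) : 2 ≤ (Z adj U u).card := by
  have h1 := D.tc u hu
  have h2 : (Tf u).card ≤ (M adj U u).card := card_le_card fun y hy => D.tm hy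
  have h3 := D.zc u hu
  omega

theorem keep (D : Dat adj U a Tf) {q u : V} (hq : q ∈ U) (hu : u ∈ U) (huq : u = q ∨ adj u q)
    (hgood : ¬ (q ∈ V2 U Tf ∧ (Z adj U (a q)).card ≤ 2)) : ∃ t ∈ Z adj U u, t ∉ M adj U q := by
  by_contra hcon
  push Not at hcon
  have h1 : Z adj U u ⊆ Tf q := fun t ht => (D.dagger hq hu huq ht (hcon t ht)).1
  have h2 := card_le_card h1
  have h3 := D.z_two hu
  by_cases hV : q ∈ V2 U Tf
  · obtain ⟨t, ht⟩ : (Z adj U u).Nonempty := card_pos.1 (by omega)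
    have h4 := (D.dagger hq hu huq ht (hcon t ht)).2 hV
    rw [h4] at h2
    exact hgood ⟨hV, h2.trans (D.c2 q hV).1.le⟩
  · have := (D.c1 q hq hV).1
    omega

theorem bad_no (D : Dat adj U a Tf) {x t : V} (hx : x ∈ V2 U Tf) (hxb : (Z adj U (a x)).card ≤ 2)
    (ht : t ∈ Tf x) (htb : (Z adj U (a t)).card ≤ 2) : False := by
  have hxU := (mem_V2.1 hx).1
  have htU := D.tu ht
  have hx' := (D.c2 x hx).2.2 t ht
  have h1 := (mem_sdiff.1 (D.both hxU ht hx')).1
  have h2 := (mem_sdiff.1 (D.both htU hx' ht)).1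
  have h3 := D.zc _ (D.aU x hxU)
  have h4 := D.zc _ (D.aU t htU)
  have key1 : ∀ s ∈ U, ∀ r, r ∈ M adj U s → (M adj U s).card ≤ 1 → r ∈ Tf s := by
    intro s hs r hr hc
    obtain ⟨w, hw⟩ : (Tf s).Nonempty := card_pos.1 (by have := D.tc s hs; omega)
    rwa [card_le_one.1 hc r hr w (D.tm hw)]
  have h5 := key1 _ (D.aU x hxU) _ h1 (by omega)
  have h6 := key1 _ (D.aU t htU) _ h2 (by omega)
  have h7 := D.both (D.aU x hxU) h5 h6
  have h8 : 1 ≤ (M adj U (a (a x)) \ I adj U (a x)).card := card_pos.2 ⟨_, h7⟩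
  have h9 := D.tc _ (D.aU x hxU)
  have h10 : (Tf (a x)).card ≤ (M adj U (a x)).card := card_le_card fun y hy => D.tm hy
  omega

theorem step (D : Dat adj U a Tf) {X : Finset V} {u t : V} (hv : Valid adj U (X, u))
    (ht : t ∈ Z adj U u) :
    Valid adj U (nxt adj U X t) ∧ t ∉ X ∧ t ∈ (nxt adj U X t).1 ∧
      ∀ x ∈ X, x ∉ (nxt adj U X t).1 → t ∈ Tf x ∧ (x ∈ V2 U Tf → u = a x) := by
  obtain ⟨hXU, huX, hdom⟩ := hv
  simp only at hXU huX hdom
  have ht' := mem_Z.1 ht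
  have htX : t ∉ X := fun h => ht'.2.2.1 (hdom t h ht'.2.1)
  refine ⟨⟨?_, ?_, ?_⟩, htX, mem_insert_self _ _, ?_⟩
  · intro x hx
    unfold nxt at hx
    rcases mem_insert.1 hx with rfl | hx
    · exact ht'.1
    · exact hXU (mem_sdiff.1 hx).1
  · exact mem_insert_self _ _
  · intro x hx hxt
    unfold nxt at hx hxt ⊢
    simp only at hx hxt ⊢
    rcases mem_insert.1 hx with rfl | hx
    · exact absurd rfl hxt
    · rw [mem_sdiff] at hx
      by_contra hcon
      apply hx.2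
      refine mem_M.2 ⟨hXU hx.1, hxt, hcon, ?_⟩
      intro hxt'
      by_cases hxu : x = u
      · subst hxu
        exact ht'.2.2.1 hxt'
      · exact ht'.2.2.2 x (hXU hx.1) (hdom x hx.1 hxu) hxt'
  · intro x hx hxn
    unfold nxt at hxn
    simp only [mem_insert, mem_sdiff, not_or, not_and, not_not] at hxn
    have h1 := M_symm ht'.1 (hxn.2 hx)
    refine D.dagger (hXU hx) (hXU huX) ?_ ht h1
    by_cases hxu : x = u
    · exact Or.inl hxu.symm
    · exact Or.inr (hdom x hx hxu)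

theorem hit_mono (D : Dat adj U a Tf) {X : Finset V} {u t : V} (hv : Valid adj U (X, u))
    (ht : t ∈ Z adj U u) : Hit U Tf X ⊆ Hit U Tf (nxt adj U X t).1 := by
  obtain ⟨_, _, htX', hrem⟩ := D.step hv ht
  intro C hC
  unfold Hit at hC ⊢
  rw [mem_filter] at hC ⊢
  refine ⟨hC.1, hC.2.1, ?_⟩
  obtain ⟨x, hx⟩ := hC.2.2
  rw [mem_inter] at hx
  by_cases hxn : x ∈ (nxt adj U X t).1
  · exact ⟨x, mem_inter.2 ⟨hxn, hx.2⟩⟩
  · exact ⟨t, mem_inter.2 ⟨htX', hC.2.1 x hx.2 (hrem x hx.1 hxn).1⟩⟩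

end Dat

end

end Pool.Agent.SulTree
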