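import Pool.Agent.SulTree.Base

/-!
# No tree component in the graph of the non-adjacent pairs
-/

set_option autoImplicit false
set_option linter.unusedSectionVars false

namespace Pool.Agent.SulTree

open Finset

/-- The graph of the pairs of non-adjacent vertices. -/
def co {V : Type*} (adj : V → V → Prop) : SimpleGraph V where
  Adj x y := x ≠ y ∧ ¬ adj x y ∧ ¬ adj y x
  symm := ⟨fun _ _ h => ⟨h.1.symm, h.2.2, h.2.1⟩⟩
  loopless := ⟨fun _ h => h.1 rfl⟩

theorem leaf {W : Type*} [Finite W] [Nonempty W] (G : SimpleGraph W) (hG : G.IsAcyclic) :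
    ∃ u, ∀ w w', G.Adj u w → G.Adj u w' → w = w' := by
  obtain ⟨u, v, p, hp, hmax⟩ := SimpleGraph.Walk.exists_isPath_forall_isPath_length_le_length G
  refine ⟨u, ?_⟩
  have key : ∀ w, G.Adj u w → w = p.snd := by
    intro w hadj
    by_cases hnil : p.Nil
    · exfalso
      have h1 : (SimpleGraph.Walk.cons hadj SimpleGraph.Walk.nil).IsPath := by
        simp [SimpleGraph.Walk.cons_isPath_iff, hadj.ne]
      have h2 := hmax _ _ _ h1
      have h3 := SimpleGraph.Walk.length_eq_zero_iff.2 hnil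
      simp at h2
      omega
    · apply hG.eq_snd_of_adj_start hp hadj
      have h1 : ¬(p.cons hadj.symm).IsPath := by
        intro h1
        have h2 := hmax _ _ _ h1
        rw [SimpleGraph.Walk.length_cons] at h2
        omega
      by_contra hcon
      exact h1 (hp.cons hcon)
  intro w w' hw hw'
  rw [key w hw, key w' hw']

section
variable {V : Type*} [DecidableEq V] {adj : V → V → Prop} [DecidableRel adj]

theorem mem_M_iff {U : Finset V} {v w : V} : w ∈ M adj U v ↔ w ∈ U ∧ (co adj).Adj v w := by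
  rw [mem_M]
  constructor
  · rintro ⟨h1, h2, h3, h4⟩
    exact ⟨h1, h2.symm, h3, h4⟩
  · rintro ⟨h1, h2, h3, h4⟩
    exact ⟨h1, h2.symm, h3, h4⟩

theorem no_tree {U : Finset V} (a : V → V) (haU : ∀ z ∈ U, a z ∈ U) (haz : ∀ z ∈ U, adj (a z) z)
    (hcard : ∀ z ∈ U, (M adj U (a z) \ I adj U z).card + 1 ≤
      (Z adj U (a z) ∩ M adj U z).card) :
    ∀ (n : ℕ) (L : Finset V), L.card = n → L.Nonempty → L ⊆ U →
      ((co adj).induce (L : Set V)).IsAcyclic →
      (∀ z ∈ L, Z adj U (a z) ∩ M adj U z ⊆ L) → False := by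
  intro n
  induction n using Nat.strong_induction_on with
  | _ n ih =>
    intro L hn hL hLU hG hcl
    have : Nonempty (L : Set V) := hL.coe_sort
    have : Finite (L : Set V) := L.finite_toSet
    obtain ⟨⟨x, hx⟩, hux⟩ := leaf _ hG
    have hxL : x ∈ L := hx
    have huniq : ∀ w ∈ L, ∀ w' ∈ L, (co adj).Adj x w → (co adj).Adj x w' → w = w' := by
      intro w hw w' hw' h h'
      have := hux ⟨w, hw⟩ ⟨w', hw'⟩ (by rw [SimpleGraph.comap_adj]; exact h)
        (by rw [SimpleGraph.comap_adj]; exact h')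
      simpa using this
    have hT : ∀ w ∈ Z adj U (a x) ∩ M adj U x, ∀ w' ∈ Z adj U (a x) ∩ M adj U x, w = w' := by
      intro w hw w' hw'
      exact huniq w (hcl x hxL hw) w' (hcl x hxL hw') (mem_M_iff.1 (mem_inter.1 hw).2).2
        (mem_M_iff.1 (mem_inter.1 hw').2).2
    have hT1 : (Z adj U (a x) ∩ M adj U x).card ≤ 1 := card_le_one.2 hT
    have hc := hcard x (hLU hxL)
    have hM0 : M adj U (a x) \ I adj U x = ∅ := card_eq_zero.1 (by omega)
    obtain ⟨y, hy⟩ : (Z adj U (a x) ∩ M adj U x).Nonempty := card_pos.1 (by omega)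
    have hyL := hcl x hxL hy
    have hyM := mem_M_iff.1 (mem_inter.1 hy).2
    refine ih (L.erase x).card (by rw [← hn]; exact card_erase_lt_of_mem hxL) (L.erase x) rfl
      ⟨y, mem_erase.2 ⟨hyM.2.1.symm, hyL⟩⟩ ((erase_subset _ _).trans hLU) ?_ ?_
    · have h1 : ((L.erase x : Finset V) : Set V) ⊆ (L : Set V) := by
        exact_mod_cast erase_subset _ _
      exact hG.embedding (SimpleGraph.induceHomOfLE (co adj) h1)
    · intro z hz w hw
      have hz' := mem_erase.1 hz
      refine mem_erase.2 ⟨?_, hcl z hz'.2 hw⟩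
      rintro rfl
      have h1 := mem_M_iff.1 (mem_inter.1 hw).2
      have hzy : z = y := huniq z hz'.2 y hyL h1.2.symm hyM.2
      subst hzy
      have h2 := two_sided (adj := adj) (haU w (hLU hxL)) (haU z (hLU hyL)) (haz w (hLU hxL))
        (haz z (hLU hyL)) (mem_inter.1 hy).1 (mem_inter.1 hw).1
      rw [hM0] at h2
      exact absurd h2 (notMem_empty _)

/-- If the graph of the non-adjacent pairs of `U` has a component that is a tree, and every
nonempty in-neighbourhood in `U` has a vertex as wanted, then `U` has one. -/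
theorem sul_of_tree {d : ℕ} {U K : Finset V} (hKU : K ⊆ U) (hK : K.Nonempty)
    (hcl : ∀ x ∈ K, ∀ y ∈ U, (co adj).Adj x y → y ∈ K)
    (hac : ((co adj).induce (K : Set V)).IsAcyclic)
    (hmin : ∀ z ∈ U, (I adj U z).Nonempty → ∃ v, Sul adj d (I adj U z) v) :
    ∃ v, Sul adj d U v := by
  by_contra hcon
  push Not at hcon
  have hex : ∀ z, ∃ a, z ∈ U → a ∈ U ∧ adj a z ∧
      (M adj U a \ I adj U z).card + 1 ≤ (Z adj U a ∩ M adj U z).card := by
    intro z
    by_cases hz : z ∈ U
    · obtain ⟨a, ha⟩ := exists_good hcon hmin hz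
      exact ⟨a, fun _ => ha⟩
    · exact ⟨z, fun h => absurd h hz⟩
  choose a ha using hex
  refine no_tree a (fun z hz => (ha z hz).1) (fun z hz => (ha z hz).2.1)
    (fun z hz => (ha z hz).2.2) K.card K rfl hK hKU hac ?_
  intro z hz w hw
  have := mem_M_iff.1 (mem_inter.1 hw).2
  exact hcl z hz w this.1 this.2

end

end Pool.Agent.SulTree
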